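import Pool.Agent.H3.BI.Stm2

/-!
# Part EXI of project BD: the process exists

The aggregates are driven by independent variables `ω (t, B)` with law `launch ν B` (`t ≥ 1`, `B` a
finite set): `X (t + 1) = ω (t, X t)`.  (Same construction as the library module
`K1H1.BI.EX`.)
-/

set_option autoImplicit false

open scoped ENNReal
open Finset MeasureTheory Filter

namespace Pool.Agent.H83.BD.EXI

open Pool.Agent.H3.BI

variable {d : ℕ}

/-- A function with sum one as a probability mass function. -/
noncomputable def mkP (f : Finset (Site d) → ℝ≥0∞) (h : ∑' C, f C = 1) : PMF (Finset (Site d)) :=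
  ⟨f, h ▸ ENNReal.summable.hasSum⟩

/-- The process. -/
def XX : ℕ → (ℕ × Finset (Site d) → Finset (Site d)) → Finset (Site d)
  | 0, _ => {0}
  | t + 1, ω => if t = 0 then {0} else ω (t, XX t ω)

theorem XX_one (ω : ℕ × Finset (Site d) → Finset (Site d)) : XX 1 ω = {0} := rfl

theorem XX_succ (t : ℕ) (ht : 1 ≤ t) (ω : ℕ × Finset (Site d) → Finset (Site d)) :
    XX (t + 1) ω = ω (t, XX t ω) := by
  show (if t = 0 then {0} else ω (t, XX t ω)) = _
  rw [if_neg (by omega)]

theorem cyl_iff (ω : ℕ × Finset (Site d) → Finset (Site d)) (a : ℕ → Finset (Site d))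
    (ha : a 1 = {0}) (t : ℕ) :
    (∀ i, 1 ≤ i → i ≤ t + 1 → XX i ω = a i) ↔ ∀ i, 1 ≤ i → i ≤ t → ω (i, a i) = a (i + 1) := by
  constructor
  · intro h i h1 h2
    rw [← h (i + 1) (by omega) (by omega), XX_succ i h1, h i h1 (by omega)]
  · intro h i h1 h2
    induction i, h1 using Nat.le_induction with
    | base => rw [XX_one, ha]
    | succ i hi ih =>
      rw [XX_succ i hi, ih (by omega), h i hi (by omega)]

/-- The discrete measurable structure. -/
instance instMS : MeasurableSpace (Finset (Site d)) := ⊤

/-- The product measure. -/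
noncomputable def QP (K : Finset (Site d) → PMF (Finset (Site d))) :
    Measure (ℕ × Finset (Site d) → Finset (Site d)) :=
  Measure.infinitePi fun p => (K p.2).toMeasure

instance (K : Finset (Site d) → PMF (Finset (Site d))) : IsProbabilityMeasure (QP K) := by
  unfold QP
  infer_instance

theorem QP_cyl (K : Finset (Site d) → PMF (Finset (Site d))) (a : ℕ → Finset (Site d)) (t : ℕ) :
    QP K {ω | ∀ i, 1 ≤ i → i ≤ t → ω (i, a i) = a (i + 1)} =
      ∏ i ∈ Icc 1 t, K (a i) (a (i + 1)) := by
  classical
  have hset : {ω : ℕ × Finset (Site d) → Finset (Site d) |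
        ∀ i, 1 ≤ i → i ≤ t → ω (i, a i) = a (i + 1)} =
      Set.pi (((Icc 1 t).image fun i => (i, a i) : Finset (ℕ × Finset (Site d))) :
        Set (ℕ × Finset (Site d))) (fun p => {a (p.1 + 1)}) := by
    ext ω
    simp only [Set.mem_ofPred_eq, Set.mem_pi, Finset.mem_coe, Finset.mem_image, Finset.mem_Icc,
      Set.mem_singleton_iff]
    constructor
    · rintro h p ⟨i, ⟨h1, h2⟩, rfl⟩
      exact h i h1 h2
    · intro h i h1 h2
      exact h (i, a i) ⟨i, ⟨h1, h2⟩, rfl⟩
  rw [hset, QP, Measure.infinitePi_pi _ (fun _ _ => MeasurableSpace.measurableSet_top)]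
  rw [Finset.prod_image (fun i _ j _ h => (Prod.mk.inj h).1)]
  refine Finset.prod_congr rfl fun i _ => ?_
  exact PMF.toMeasure_apply_singleton _ _ trivial

theorem meas_XX (t : ℕ) (B : Finset (Site d)) : MeasurableSet {ω | XX t ω = B} := by
  induction t generalizing B with
  | zero =>
    have : {ω | XX 0 ω = B} =
      {_ω : ℕ × Finset (Site d) → Finset (Site d) | ({0} : Finset (Site d)) = B} := rfl
    rw [this]
    exact MeasurableSet.const _
  | succ t ih =>
    by_cases ht : t = 0
    · subst ht
      have : {ω | XX 1 ω = B} =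
        {_ω : ℕ × Finset (Site d) → Finset (Site d) | ({0} : Finset (Site d)) = B} := rfl
      rw [this]
      exact MeasurableSet.const _
    · have : {ω | XX (t + 1) ω = B} =
          ⋃ C : Finset (Site d), {ω | XX t ω = C} ∩ {ω | ω (t, C) = B} := by
        ext ω
        simp only [Set.mem_ofPred_eq, Set.mem_iUnion, Set.mem_inter_iff]
        rw [XX_succ t (by omega)]
        constructor
        · intro h
          exact ⟨_, rfl, h⟩
        · rintro ⟨C, h1, h2⟩
          rw [h1]
          exact h2
      rw [this]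
      refine MeasurableSet.iUnion fun C => (ih C).inter ?_
      have h3 : {ω : ℕ × Finset (Site d) → Finset (Site d) | ω (t, C) = B} =
        (fun ω => ω (t, C)) ⁻¹' {B} := rfl
      rw [h3]
      exact (measurable_pi_apply _) trivial

theorem markov_XX (K : Finset (Site d) → PMF (Finset (Site d))) (t : ℕ)
    (a : ℕ → Finset (Site d)) (ht : 1 ≤ t) :
    QP K {ω | ∀ i, 1 ≤ i → i ≤ t + 1 → XX i ω = a i} =
      QP K {ω | ∀ i, 1 ≤ i → i ≤ t → XX i ω = a i} * K (a t) (a (t + 1)) := by
  by_cases ha : a 1 = {0}
  · obtain ⟨s, rfl⟩ : ∃ s, t = s + 1 := ⟨t - 1, by omega⟩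
    simp only [cyl_iff _ a ha]
    rw [QP_cyl, QP_cyl, Finset.prod_Icc_succ_top (by omega)]
  · have e : ∀ t, 1 ≤ t →
      {ω : ℕ × Finset (Site d) → Finset (Site d) | ∀ i, 1 ≤ i → i ≤ t → XX i ω = a i} = ∅ := by
      intro t ht
      ext ω
      simp only [Set.mem_ofPred_eq, Set.mem_empty_iff_false, iff_false]
      intro h
      exact ha (h 1 le_rfl ht).symm
    rw [e t ht, e (t + 1) (by omega)]
    simp

/-- **Part EXI.** -/
theorem t_EXI : S_EXI := by
  intro hT d _ ν hd hH
  let K : Finset (Site d) → PMF (Finset (Site d)) := fun A => mkP (launch ν A) (hT d ν A hd hH)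
  refine ⟨ℕ × Finset (Site d) → Finset (Site d), inferInstance, QP K, XX, ?_⟩
  exact
    { prob := inferInstance
      meas := fun t B => meas_XX t B
      start := by
        have : {ω : ℕ × Finset (Site d) → Finset (Site d) | XX 1 ω = {0}} = Set.univ := by
          ext ω
          simp [XX_one]
        rw [this, measure_univ]
      markov := fun t a ht => markov_XX K t a ht }

end Pool.Agent.H83.BD.EXI
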