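import Pool.Agent.H3.BI.Stm2

/-!
# Part FN2 of project BD: the almost sure statement (Borel-Cantelli)
-/

set_option autoImplicit false

open scoped ENNReal
open Finset MeasureTheory Filter Asymptotics

namespace Pool.Agent.H83.BD.FN2

open Pool.Agent.H3.BI

theorem rad_tendsto {d : ℕ} (hd : 3 ≤ d) (hom : 0 < om d) :
    Tendsto (fun t : ℕ => rad d t) atTop atTop := by
  have h1 : Tendsto (fun t : ℕ => (t : ℝ) / om d) atTop atTop :=
    tendsto_natCast_atTop_atTop.atTop_div_const hom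
  exact (tendsto_rpow_atTop (by positivity)).comp h1

theorem summable_exp {d : ℕ} (hd : 3 ≤ d) (hom : 0 < om d) {c : ℝ} (hc : 0 < c) :
    Summable (fun t : ℕ => Real.exp (-(rad d t ^ c))) := by
  have hd0 : (0 : ℝ) < d := by positivity
  have hv : Tendsto (fun t : ℕ => rad d t ^ c) atTop atTop :=
    (tendsto_rpow_atTop hc).comp (rad_tendsto hd hom)
  have h1 := (isLittleO_exp_neg_mul_rpow_atTop (one_pos : (0 : ℝ) < 1) (-(2 * d / c))).comp_tendsto hv
  have h2 : ∀ t : ℕ, (rad d t ^ c) ^ (-(2 * d / c)) = om d ^ 2 * (1 / (t : ℝ) ^ 2) := by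
    intro t
    have h0 : (0 : ℝ) ≤ t / om d := by positivity
    unfold rad
    rw [← Real.rpow_mul h0, ← Real.rpow_mul h0]
    have e : 1 / (d : ℝ) * c * -(2 * d / c) = -(2 : ℕ) := by
      push_cast
      field_simp
    rw [e, Real.rpow_neg h0, Real.rpow_natCast, div_pow]
    field_simp
  have h3 : Summable (fun t : ℕ => om d ^ 2 * (1 / (t : ℝ) ^ 2)) :=
    (Real.summable_one_div_nat_pow.mpr (by norm_num)).mul_left _
  refine summable_of_isBigO_nat h3 (h1.isBigO.congr (fun t => ?_) (fun t => ?_))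
  · simp [Function.comp]
  · simp only [Function.comp]
    exact h2 t

/-- The good event. -/
def Gd (d : ℕ) (η : ℝ) (t : ℕ) (A : Finset (Site d)) : Prop :=
  (∀ z : Site d, nrm z ≤ rad d t - rad d t ^ (ta d / 2 + η) → z ∈ A) ∧
    ∀ z ∈ A, nrm z ≤ rad d t + rad d t ^ (ta d / 2 + η)

theorem inner_le {d : ℕ} {η : ℝ} {t : ℕ} {A : Finset (Site d)} (h : Gd d η t A)
    (h0 : 0 ≤ rad d t) : innerDev t A ≤ rad d t ^ (ta d / 2 + η) := by
  refine csInf_le ⟨0, fun x hx => hx.1⟩ ⟨Real.rpow_nonneg h0 _, fun z hz => h.1 z hz.le⟩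

theorem outer_le {d : ℕ} {η : ℝ} {t : ℕ} {A : Finset (Site d)} (h : Gd d η t A)
    (h0 : 0 ≤ rad d t) : outerDev t A ≤ rad d t ^ (ta d / 2 + η) := by
  refine le_of_forall_pos_le_add fun δ hδ => ?_
  refine csInf_le ⟨0, fun x hx => hx.1⟩ ⟨?_, fun z hz => ?_⟩
  · have := Real.rpow_nonneg h0 (ta d / 2 + η)
    linarith
  · have := h.2 z hz
    linarith

/-- **Part FN2.** -/
theorem t_FN2 : S_FN2 := by
  intro hF hCNT d _ ν hd hH Ω mΩ P X hX
  have hom := (hCNT d hd).1
  have hr := rad_tendsto hd hom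
  have key : ∀ k : ℕ, ∀ᵐ ω ∂P, ∀ᶠ t in atTop, Gd d (1 / ((k : ℝ) + 5)) t (X t ω) := by
    intro k
    have hk : (0 : ℝ) < 1 / ((k : ℝ) + 5) := by positivity
    have hk2 : 1 / ((k : ℝ) + 5) < 1 / 4 := by
      apply one_div_lt_one_div_of_lt (by norm_num)
      have : (0 : ℝ) ≤ k := Nat.cast_nonneg k
      linarith
    obtain ⟨c, T, hc, hT⟩ := hF d ν (1 / ((k : ℝ) + 5)) hd hH hk hk2
    have hb := hT Ω mΩ P X hX
    have hsum : ∑' t : ℕ, P {ω | ¬ Gd d (1 / ((k : ℝ) + 5)) (t + T) (X (t + T) ω)} ≠ ∞ := by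
      have hs := summable_exp hd hom hc
      have hs' : Summable (fun t : ℕ => Real.exp (-(rad d (t + T) ^ c))) :=
        (summable_nat_add_iff T).mpr hs
      refine ne_top_of_le_ne_top ?_ (ENNReal.tsum_le_tsum fun t => hb (t + T) (by omega))
      exact hs'.tsum_ofReal_ne_top
    have hbc := ae_eventually_notMem hsum
    filter_upwards [hbc] with ω hω
    have h1 : ∀ᶠ t in atTop, Gd d (1 / ((k : ℝ) + 5)) (t + T) (X (t + T) ω) := by
      filter_upwards [hω] with t ht
      by_contra hn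
      exact ht hn
    obtain ⟨t0, ht0⟩ := eventually_atTop.mp h1
    refine eventually_atTop.mpr ⟨t0 + T, fun t ht => ?_⟩
    have := ht0 (t - T) (by omega)
    rwa [Nat.sub_add_cancel (by omega)] at this
  rw [← ae_all_iff] at key
  filter_upwards [key] with ω hω ε hε
  obtain ⟨k, hk⟩ := exists_nat_one_div_lt hε
  have hk' : 1 / ((k : ℝ) + 5) ≤ ε := by
    refine le_trans ?_ hk.le
    exact one_div_le_one_div_of_le (by positivity) (by linarith)
  filter_upwards [hω k, hr.eventually_ge_atTop 1] with t ht h1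
  have hmono : rad d t ^ (ta d / 2 + 1 / ((k : ℝ) + 5)) ≤ rad d t ^ (ta d / 2 + ε) :=
    Real.rpow_le_rpow_of_exponent_le h1 (by linarith)
  exact ⟨(inner_le ht (by linarith)).trans hmono, (outer_le ht (by linarith)).trans hmono⟩

end Pool.Agent.H83.BD.FN2
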