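import Pool.Agent.H3.BI.Stm2

/-!
# Part TRU of project BD: on the whole lattice every launch ends
-/

set_option autoImplicit false

open scoped ENNReal
open Finset MeasureTheory Filter

namespace Pool.Agent.H83.BD.TRU

open Pool.Agent.H3.BI

variable {d : ℕ}

/-- every shell between `N0` and `|x|` contains a site of `B` -/
def cov (N0 : ℕ) (B : Finset (Site d)) (x : Site d) : Prop :=
  ∀ k : ℕ, N0 ≤ k → (k : ℝ) ≤ nrm x → ∃ y ∈ B, (k : ℝ) ≤ nrm y ∧ nrm y < k + 1

theorem cov_mono {N0 : ℕ} {B B' : Finset (Site d)} (h : B ⊆ B') {x : Site d} (hx : cov N0 B x) :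
    cov N0 B' x := by
  intro k hk hkx
  obtain ⟨y, hy, h1⟩ := hx k hk hkx
  exact ⟨y, h hy, h1⟩

/-- the invariant -/
def Inv (N0 : ℕ) (p : Cf d) : Prop := (∀ x ∈ p.1, cov N0 p.1 x) ∧ ∀ x ∈ p.2, cov N0 p.1 x

theorem nsq_add_uvec (x : Site d) (e : Dir d) :
    nsq (x + uvec e) = nsq x + 2 * (if e.2 then 1 else -1) * (x e.1 : ℝ) + 1 := by
  classical
  unfold nsq uvec
  have h1 : ∀ i, (((x + (Pi.single e.1 (if e.2 = true then (1 : ℤ) else -1) : Site d) : Site d) i
      : ℤ) : ℝ) ^ 2 =
      (x i : ℝ) ^ 2 + (if i = e.1 then 2 * (if e.2 then 1 else -1) * (x e.1 : ℝ) + 1 else 0) := by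
    intro i
    rw [Pi.add_apply]
    by_cases hi : i = e.1
    · subst hi
      rw [Pi.single_eq_same, if_pos rfl]
      split_ifs <;> push_cast <;> ring
    · rw [Pi.single_eq_of_ne hi, if_neg hi]
      push_cast
      ring
  rw [Finset.sum_congr rfl fun i _ => h1 i, Finset.sum_add_distrib, Finset.sum_ite_eq']
  simp only [Finset.mem_univ, if_true]
  ring

theorem nrm_add_uvec (x : Site d) (e : Dir d) : nrm (x + uvec e) ≤ nrm x + 1 := by
  have h0 := nrm_nonneg x
  have h1 : |(x e.1 : ℝ)| ≤ nrm x := by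
    rw [← Real.sqrt_sq_eq_abs]
    exact Real.sqrt_le_sqrt (Finset.single_le_sum (f := fun i => (x i : ℝ) ^ 2)
      (fun _ _ => sq_nonneg _) (Finset.mem_univ e.1))
  have h2 : nsq (x + uvec e) ≤ (nrm x + 1) ^ 2 := by
    rw [nsq_add_uvec, add_sq, nrm_sq]
    have h3 := abs_le.mp h1
    split_ifs <;> nlinarith [h3.1, h3.2]
  calc nrm (x + uvec e) = Real.sqrt (nsq (x + uvec e)) := rfl
    _ ≤ Real.sqrt ((nrm x + 1) ^ 2) := Real.sqrt_le_sqrt h2
    _ = nrm x + 1 := Real.sqrt_sq (by linarith)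

theorem arr_inv {N0 : ℕ} {D : Set (Site d)} {x : Site d} {p : Cf d} (e : Dir d)
    (hp : Inv N0 p) (hx : cov N0 p.1 x) :
    Inv N0 (arr D (x + uvec e) p) ∧ cov N0 (arr D (x + uvec e) p).1 x := by
  classical
  unfold arr
  by_cases h : x + uvec e ∈ p.1
  · rw [if_pos h]
    by_cases hD : x + uvec e ∈ D
    · rw [if_pos hD]
      refine ⟨⟨hp.1, fun y hy => ?_⟩, hx⟩
      rcases List.mem_cons.mp hy with h1 | h1
      · rw [h1]; exact hp.1 _ h
      · exact hp.2 _ h1
    · rw [if_neg hD]
      exact ⟨hp, hx⟩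
  · rw [if_neg h]
    have hsub : p.1 ⊆ insert (x + uvec e) p.1 := Finset.subset_insert _ _
    have hnew : cov N0 (insert (x + uvec e) p.1) (x + uvec e) := by
      intro k hk hkx
      by_cases hkx' : (k : ℝ) ≤ nrm x
      · obtain ⟨y, hy, h1⟩ := hx k hk hkx'
        exact ⟨y, hsub hy, h1⟩
      · refine ⟨x + uvec e, Finset.mem_insert_self _ _, hkx, ?_⟩
        have := nrm_add_uvec x e
        push Not at hkx'
        linarith
    refine ⟨⟨fun y hy => ?_, fun y hy => cov_mono hsub (hp.2 y hy)⟩, cov_mono hsub hx⟩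
    rcases Finset.mem_insert.mp hy with h1 | h1
    · rw [h1]; exact hnew
    · exact cov_mono hsub (hp.1 y h1)

theorem steps_inv {N0 : ℕ} {D : Set (Site d)} {x : Site d} {f g : Cf d → ℝ≥0∞}
    (h : ∀ q, Inv N0 q → f q ≤ g q) (k : ℕ) (p : Cf d) (hp : Inv N0 p) (hx : cov N0 p.1 x) :
    steps D x k f p ≤ steps D x k g p := by
  induction k generalizing p with
  | zero => exact h p hp
  | succ k ih =>
    simp only [steps]
    refine ENNReal.div_le_div_right (Finset.sum_le_sum fun e _ => ?_) _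
    obtain ⟨h1, h2⟩ := arr_inv (D := D) e hp hx
    exact ih _ h1 h2

theorem Ph_inv {N0 : ℕ} {ν : PMF ℕ} {D : Set (Site d)} {f g : Finset (Site d) → ℝ≥0∞}
    (h : ∀ B, Inv N0 (B, []) → f B ≤ g B) (n : ℕ) (p : Cf d) (hp : Inv N0 p) :
    Ph ν D f n p ≤ Ph ν D g n p := by
  induction n generalizing p with
  | zero =>
    obtain ⟨A, L⟩ := p
    cases L with
    | nil => simpa using h A hp
    | cons x L => simp
  | succ n ih =>
    obtain ⟨A, L⟩ := p
    cases L with
    | nil => simpa using h A hp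
    | cons x L =>
      rw [Ph_succ_cons, Ph_succ_cons]
      unfold top
      refine ENNReal.tsum_le_tsum fun k => mul_le_mul_right ?_ _
      have hI : Inv N0 ((A, L) : Cf d) := ⟨hp.1, fun y hy => hp.2 y (List.mem_cons_of_mem _ hy)⟩
      exact steps_inv (fun q hq => ih q hq) k _ hI (hp.2 x List.mem_cons_self)

/-- size of a configuration -/
noncomputable def sz (c : ℝ≥0∞) (p : Cf d) : ℝ≥0∞ := c * ((p.1.card : ℝ≥0∞) + p.2.length)

theorem sz_arr (c : ℝ≥0∞) (D : Set (Site d)) (y : Site d) (p : Cf d) :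
    sz c (arr D y p) ≤ sz c p + c := by
  classical
  unfold arr sz
  split_ifs with h1 h2
  · simp only [List.length_cons]
    push_cast
    rw [← add_assoc, mul_add, mul_one]
  · exact le_self_add
  · simp only
    rw [Finset.card_insert_of_notMem h1]
    push_cast
    rw [mul_add, mul_add, mul_add, mul_one]
    exact le_of_eq (by ring)

theorem steps_sz (hd : d ≠ 0) (c : ℝ≥0∞) (D : Set (Site d)) (x : Site d) (k : ℕ) (p : Cf d) :
    steps D x k (sz c) p ≤ sz c p + c * k := by
  have hne : (2 * (d : ℝ≥0∞)) ≠ 0 := by simp [hd]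
  have hnt : (2 * (d : ℝ≥0∞)) ≠ ∞ := ENNReal.mul_ne_top (by simp) (by simp)
  induction k generalizing p with
  | zero => simp [steps]
  | succ k ih =>
    simp only [steps]
    rw [ENNReal.div_le_iff hne hnt]
    refine (Finset.sum_le_sum fun e _ => (ih (arr D (x + uvec e) p)).trans
      (add_le_add_left (sz_arr c D (x + uvec e) p) _)).trans ?_
    rw [Finset.sum_const, Finset.card_univ, Fintype.card_prod, Fintype.card_fin, Fintype.card_bool,
      nsmul_eq_mul]
    push_cast
    exact le_of_eq (by ring)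

theorem mean_top {ν : PMF ℕ} (hH : ConditionH ν) : ∑' k : ℕ, ν k * (k : ℝ≥0∞) = 1 := by
  have h1 : ∀ k : ℕ, ν k * (k : ℝ≥0∞) = ENNReal.ofReal ((ν k).toReal * (k : ℝ)) := by
    intro k
    rw [ENNReal.ofReal_mul ENNReal.toReal_nonneg, ENNReal.ofReal_toReal (ν.apply_ne_top k),
      ENNReal.ofReal_natCast]
  rw [tsum_congr h1, ← ENNReal.ofReal_tsum_of_nonneg (fun k => by positivity) hH.mean.summable,
    hH.mean.tsum_eq, ENNReal.ofReal_one]

theorem steps_mono {D : Set (Site d)} {x : Site d} {f g : Cf d → ℝ≥0∞}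
    (h : ∀ q, f q ≤ g q) (k : ℕ) (p : Cf d) : steps D x k f p ≤ steps D x k g p := by
  induction k generalizing p with
  | zero => exact h p
  | succ k ih =>
    simp only [steps]
    exact ENNReal.div_le_div_right (Finset.sum_le_sum fun e _ => ih _) _

theorem Ph_sz (hd : d ≠ 0) {ν : PMF ℕ} (hH : ConditionH ν) (D : Set (Site d)) (c : ℝ≥0∞) (n : ℕ)
    (p : Cf d) : Ph ν D (fun B => c * (B.card : ℝ≥0∞)) n p ≤ sz c p := by
  induction n generalizing p with
  | zero =>
    obtain ⟨A, L⟩ := p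
    cases L with
    | nil => simp [sz]
    | cons x L => simp
  | succ n ih =>
    obtain ⟨A, L⟩ := p
    cases L with
    | nil => simp [sz]
    | cons x L =>
      rw [Ph_succ_cons]
      unfold top
      have hm : ∀ k : ℕ, steps D x k (Ph ν D (fun B => c * (B.card : ℝ≥0∞)) n) (A, L) ≤
          sz c (A, L) + c * k := fun k =>
        (steps_mono ih k (A, L)).trans (steps_sz hd c D x k (A, L))
      calc ∑' k : ℕ, ν k * steps D x k (Ph ν D (fun B => c * (B.card : ℝ≥0∞)) n) (A, L)
          ≤ ∑' k : ℕ, (sz c (A, L) * ν k + c * (ν k * (k : ℝ≥0∞))) :=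
            ENNReal.tsum_le_tsum fun k => (mul_le_mul_right (hm k) _).trans
              (le_of_eq (by ring))
        _ = sz c (A, L) * ∑' k, ν k + c * ∑' k : ℕ, ν k * (k : ℝ≥0∞) := by
            rw [ENNReal.tsum_add, ENNReal.tsum_mul_left, ENNReal.tsum_mul_left]
        _ = sz c (A, L) + c := by rw [ν.tsum_coe, mean_top hH, mul_one, mul_one]
        _ = sz c (A, x :: L) := by
            unfold sz
            simp only [List.length_cons]
            push_cast
            ring

/-- the number of sites of a set with the invariant -/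
theorem card_ge {N0 m : ℕ} {B : Finset (Site d)} (h : Inv N0 ((B, []) : Cf d))
    (hB : ¬ (B : Set (Site d)) ⊆ Bl d m) : m + 1 - N0 ≤ B.card := by
  rw [Set.not_subset] at hB
  obtain ⟨x, hx, hxm⟩ := hB
  have hxm' : (m : ℝ) < nrm x := lt_of_not_ge hxm
  have hc := h.1 x hx
  choose! y hy using fun (k : ℕ) (hk : k ∈ Finset.Icc N0 m) =>
    hc k (Finset.mem_Icc.mp hk).1 ((Nat.cast_le.mpr (Finset.mem_Icc.mp hk).2).trans hxm'.le)
  have h1 : (Finset.Icc N0 m).card ≤ B.card := by
    refine Finset.card_le_card_of_injOn y (fun k hk => (hy k hk).1) ?_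
    intro k hk l hl hkl
    have a1 := (hy k hk).2
    have a2 := (hy l hl).2
    rw [hkl] at a1
    have b1 : k < l + 1 := by exact_mod_cast lt_of_le_of_lt a1.1 a2.2
    have b2 : l < k + 1 := by exact_mod_cast lt_of_le_of_lt a2.1 a1.2
    omega
  rwa [Nat.card_Icc] at h1

theorem ind_le_one {α : Type} (P : α → Prop) (a : α) : ind P a ≤ 1 := by
  unfold ind
  split_ifs <;> simp

/-- **Part TRU.** -/
theorem t_TRU : S_TRU := by
  classical
  intro hBAS hTRM hUNI _ d _ ν A hd hH
  have hd0 : d ≠ 0 := by omega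
  obtain ⟨_, _, _, h4, h5, _, _⟩ := hBAS d ν hd
  refine le_antisymm ?_ ?_
  · have h1 : ∑' B, launch ν A B = KD ν Set.univ (fun _ => 1) A := by
      rw [h4]
      refine tsum_congr fun B => ?_
      rw [one_mul]
      exact hUNI d ν Set.univ A B hd (Set.subset_univ _)
    rw [h1]
    exact iSup_le fun n => h5 _ n _
  · obtain ⟨N0, hN0, hN1⟩ : ∃ N0 : ℕ, 1 ≤ N0 ∧ ∀ x ∈ A, nrm x < N0 := by
      obtain ⟨N, hN⟩ : ∃ N : ℕ, ∀ x ∈ A, nrm x < N := by
        refine ⟨∑ x ∈ A, (⌊nrm x⌋₊ + 1), fun x hx => ?_⟩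
        have h1 := Finset.single_le_sum (f := fun x : Site d => ⌊nrm x⌋₊ + 1)
          (fun _ _ => Nat.zero_le _) hx
        have h2 := Nat.lt_floor_add_one (nrm x)
        refine lt_of_lt_of_le h2 ?_
        exact_mod_cast h1
      refine ⟨N + 1, by omega, fun x hx => ?_⟩
      have := hN x hx
      push_cast
      linarith
    have hInv : Inv N0 ((A, [0]) : Cf d) := by
      refine ⟨fun x hx k hk hkx => ?_, fun x hx k hk hkx => ?_⟩
      · have := hN1 x hx
        have h2 : (N0 : ℝ) ≤ k := Nat.cast_le.mpr hk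
        linarith
      · rw [List.mem_singleton] at hx
        subst hx
        have h0 : nrm (0 : Site d) = 0 := by
          unfold nrm nsq
          simp
        rw [h0] at hkx
        have h2 : (1 : ℝ) ≤ k := by exact_mod_cast hN0.trans hk
        linarith
    -- the main estimate
    have key : ∀ m : ℕ, 1 ≤ ∑' B, launch ν A B +
        ((m + 1 : ℕ) : ℝ≥0∞)⁻¹ * ((A.card : ℝ≥0∞) + 1) := by
      intro m
      set M : ℕ := m + N0 with hM
      have hT := hTRM d ν (M : ℝ) A hd hH (Nat.cast_nonneg _)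
      rw [h4] at hT
      have hsplit : ∀ B : Finset (Site d), (1 : ℝ≥0∞) * KD ν (Bl d M) (ind fun C => C = B) A ≤
          launch ν A B + ind (fun B : Finset (Site d) => ¬ (B : Set (Site d)) ⊆ Bl d M) B *
            KD ν (Bl d M) (ind fun C => C = B) A := by
        intro B
        by_cases hB : (B : Set (Site d)) ⊆ Bl d M
        · rw [hUNI d ν (Bl d M) A B hd hB, one_mul]
          exact le_self_add
        · have : ind (fun B : Finset (Site d) => ¬ (B : Set (Site d)) ⊆ Bl d M) B = 1 := by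
            unfold ind
            rw [if_pos hB]
          rw [this]
          exact le_add_self
      have h6 : ∑' B, ind (fun B : Finset (Site d) => ¬ (B : Set (Site d)) ⊆ Bl d M) B *
            KD ν (Bl d M) (ind fun C => C = B) A ≤
          ((m + 1 : ℕ) : ℝ≥0∞)⁻¹ * ((A.card : ℝ≥0∞) + 1) := by
        rw [← h4]
        refine iSup_le fun n => ?_
        have h7 := Ph_inv (ν := ν) (D := Bl d (M : ℝ))
          (f := ind (fun B : Finset (Site d) => ¬ (B : Set (Site d)) ⊆ Bl d M))
          (g := fun B => ((m + 1 : ℕ) : ℝ≥0∞)⁻¹ * (B.card : ℝ≥0∞)) (N0 := N0)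
          (fun B hB => by
            by_cases hBB : (B : Set (Site d)) ⊆ Bl d M
            · have : ind (fun B : Finset (Site d) => ¬ (B : Set (Site d)) ⊆ Bl d M) B = 0 := by
                unfold ind
                rw [if_neg (not_not.mpr hBB)]
              rw [this]
              exact zero_le
            · refine (ind_le_one _ _).trans ?_
              have h8 := card_ge hB hBB
              have h9 : m + 1 ≤ B.card := by omega
              rw [← ENNReal.inv_mul_cancel (a := ((m + 1 : ℕ) : ℝ≥0∞)) (by simp)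
                (ENNReal.natCast_ne_top _)]
              exact mul_le_mul_right (by exact_mod_cast h9) _) n (A, [0]) hInv
        refine h7.trans ((Ph_sz hd0 hH (Bl d (M : ℝ)) _ n (A, [0])).trans ?_)
        unfold sz
        simp
      calc (1 : ℝ≥0∞) = ∑' B, (1 : ℝ≥0∞) * KD ν (Bl d M) (ind fun C => C = B) A := hT.symm
        _ ≤ ∑' B, (launch ν A B + ind (fun B : Finset (Site d) =>
              ¬ (B : Set (Site d)) ⊆ Bl d M) B * KD ν (Bl d M) (ind fun C => C = B) A) :=
            ENNReal.tsum_le_tsum hsplit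
        _ = _ := ENNReal.tsum_add
        _ ≤ _ := add_le_add_right h6 _
    have hlim : Tendsto (fun m : ℕ => ∑' B, launch ν A B +
        ((m + 1 : ℕ) : ℝ≥0∞)⁻¹ * ((A.card : ℝ≥0∞) + 1)) atTop
        (nhds (∑' B, launch ν A B + 0 * ((A.card : ℝ≥0∞) + 1))) := by
      refine Tendsto.const_add _ (ENNReal.Tendsto.mul_const ?_ (Or.inr (by finiteness)))
      exact (tendsto_add_atTop_iff_nat 1).mpr ENNReal.tendsto_inv_nat_nhds_zero
    rw [zero_mul, add_zero] at hlim
    exact ge_of_tendsto' hlim key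

end Pool.Agent.H83.BD.TRU
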